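import Pool.Agent.H42.PolO2

open Pool.Agent.H42.PolO

/-- The polarized relation for omega-covers does not imply `S_1(Ω, Ω)`. -/
theorem Pool.Agent.Results.MP_7b7e09_gt.Q1.result : ∃ X : Set ℝ, PolP X ∧ ¬S1 X :=
  ⟨Set.Icc 0 1, pol_compact, not_S1⟩
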