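import Pool.Agent.H42.PolO2

open Pool.Agent.H42.PolO Pool.Agent.H42.PolD

/-- The critical cardinality of the polarized relation is `min {d, u}`. -/
theorem Pool.Agent.Results.MP_7b7e09_gt.Q2.result : nonP = min dNum uNum := nonP_eq
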